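import Pool.Agent.K1H64.ST.Defs

/-! The lattice code: `L`, its linearity, bijectivity, sparsity and the parities of the segments. -/

set_option autoImplicit false

noncomputable section

namespace Pool.Agent.K1H35.ST

open Finset Pool.Agent.K1H64.ST

variable {n : ℕ}

/-- The configuration `x` on the cells `(a, b)`, `a, b < Q`, as a function with values in `ZMod 2`. -/
def Z (Q : ℕ) (x : Cube n) (a b : ℕ) : ZMod 2 :=
  if h : a < Q ∧ b < Q ∧ a * Q + b < n then (if x ⟨a * Q + b, h.2.2⟩ then 1 else 0) else 0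

/-- The syndrome. -/
def S (Q : ℕ) (x : Cube n) (a b : ℕ) : ZMod 2 :=
  Z Q x a b + Z Q x (a + 1) b + Z Q x a (b + 1) + Z Q x (a + 1) (b + 1)

/-- The map `L`. -/
def LL (Q : ℕ) (x : Cube n) : Cube n := fun i => decide (S Q x (i.val / Q) (i.val % Q) = 1)

lemma Z_val {Q : ℕ} (hQ : 0 < Q) (hn : n + 1 = Q * Q) (x : Cube n) (i : Fin n) :
    Z Q x (i.val / Q) (i.val % Q) = if x i then 1 else 0 := by
  have h1 : i.val % Q < Q := Nat.mod_lt _ hQ
  have h2 : i.val / Q < Q := by
    rw [Nat.div_lt_iff_lt_mul hQ]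
    have := i.isLt
    omega
  have h3 : i.val / Q * Q + i.val % Q = i.val := by
    rw [mul_comm]; exact Nat.div_add_mod _ _
  unfold Z
  rw [dif_pos ⟨h2, h1, by rw [h3]; exact i.isLt⟩]
  congr 2
  apply congrArg
  exact Fin.ext h3

lemma Z_out {Q : ℕ} (x : Cube n) {a b : ℕ} (h : ¬ (a < Q ∧ b < Q ∧ a * Q + b < n)) :
    Z Q x a b = 0 := dif_neg h

lemma div_eq {Q a b : ℕ} (hb : b < Q) : (a * Q + b) / Q = a := by
  rw [mul_comm, Nat.mul_add_div (by omega), Nat.div_eq_of_lt hb, add_zero]

lemma mod_eq {Q a b : ℕ} (hb : b < Q) : (a * Q + b) % Q = b := by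
  rw [mul_comm, Nat.mul_add_mod, Nat.mod_eq_of_lt hb]

lemma corner {Q : ℕ} (hQ : 0 < Q) (hn : n + 1 = Q * Q) (x : Cube n) {a b : ℕ} (ha : a < Q)
    (hb : b < Q) (h : ¬ a * Q + b < n) : a + 1 = Q ∧ b + 1 = Q := by
  obtain ⟨q, rfl⟩ : ∃ q, Q = q + 1 := ⟨Q - 1, by omega⟩
  have h1 : a = q := by
    by_contra hne
    have h2 : a + 1 ≤ q := by omega
    have h3 : (a + 1) * (q + 1) ≤ q * (q + 1) := Nat.mul_le_mul_right _ h2
    have h4 : (q + 1) * (q + 1) = q * (q + 1) + (q + 1) := by ring
    have h5 : (a + 1) * (q + 1) = a * (q + 1) + (q + 1) := by ring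
    omega
  subst h1
  refine ⟨rfl, ?_⟩
  have h4 : (a + 1) * (a + 1) = a * (a + 1) + (a + 1) := by ring
  omega

lemma zmod2_cases (z : ZMod 2) : z = 0 ∨ z = 1 := by
  revert z; decide

/-- `Z (L x) = S x` on the square. -/
lemma Z_LL {Q : ℕ} (hQ : 0 < Q) (hn : n + 1 = Q * Q) (x : Cube n) {a b : ℕ} (ha : a < Q) (hb : b < Q) :
    Z Q (LL Q x) a b = S Q x a b := by
  by_cases h : a * Q + b < n
  · unfold Z
    rw [dif_pos ⟨ha, hb, h⟩]
    unfold LL
    simp only [div_eq hb, mod_eq hb, decide_eq_true_eq]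
    rcases zmod2_cases (S Q x a b) with h1 | h1 <;> rw [h1] <;> simp
  · obtain ⟨h1, h2⟩ := corner hQ hn x ha hb h
    rw [Z_out _ (by tauto)]
    unfold S
    rw [Z_out _ (by tauto), Z_out _ (by omega), Z_out _ (by omega), Z_out _ (by omega)]
    simp

lemma Z_xor (Q : ℕ) (x y : Cube n) (a b : ℕ) : Z Q (xorV x y) a b = Z Q x a b + Z Q y a b := by
  unfold Z
  split_ifs with h
  all_goals simp_all [xorV]
  all_goals rfl

lemma S_xor (Q : ℕ) (x y : Cube n) (a b : ℕ) : S Q (xorV x y) a b = S Q x a b + S Q y a b := by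
  unfold S
  simp only [Z_xor]
  ring

lemma LL_lin (Q : ℕ) (x y : Cube n) : LL Q (xorV x y) = xorV (LL Q x) (LL Q y) := by
  funext i
  have key : ∀ u v : ZMod 2, decide (u + v = 1) = xor (decide (u = 1)) (decide (v = 1)) := by decide
  change decide (S Q (xorV x y) (i.val / Q) (i.val % Q) = 1) =
    xor (decide (S Q x (i.val / Q) (i.val % Q) = 1)) (decide (S Q y (i.val / Q) (i.val % Q) = 1))
  rw [S_xor]
  exact key _ _

lemma LL_ker {Q : ℕ} (hQ : 0 < Q) (hn : n + 1 = Q * Q) (x : Cube n)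
    (h : ∀ i, LL Q x i = false) : ∀ i, x i = false := by
  have hS : ∀ a b, a < Q → b < Q → S Q x a b = 0 := by
    intro a b ha hb
    rw [← Z_LL hQ hn x ha hb]
    unfold Z
    split_ifs with h1 h2
    · rw [h] at h2; simp at h2
    · rfl
    · rfl
  have hZ : ∀ N a b, 2 * Q - (a + b) ≤ N → Z Q x a b = 0 := by
    intro N
    induction N with
    | zero =>
      intro a b hab
      apply Z_out
      omega
    | succ N ih =>
      intro a b hab
      by_cases hin : a < Q ∧ b < Q
      · have h1 := hS a b hin.1 hin.2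
        unfold S at h1
        rw [ih (a + 1) b (by omega), ih a (b + 1) (by omega), ih (a + 1) (b + 1) (by omega)] at h1
        simpa using h1
      · apply Z_out
        tauto
  intro i
  have h1 := Z_val hQ hn x i
  rw [hZ _ _ _ le_rfl] at h1
  by_contra hne
  rw [if_pos (by simpa using hne)] at h1
  exact absurd h1 (by decide)

lemma LL_bij {Q : ℕ} (hQ : 0 < Q) (hn : n + 1 = Q * Q) : Function.Bijective (LL (n := n) Q) := by
  apply Finite.injective_iff_bijective.mp
  intro x y hxy
  have h1 : ∀ i, LL Q (xorV x y) i = false := by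
    intro i
    rw [LL_lin, hxy]
    simp [xorV]
  have h2 := LL_ker hQ hn _ h1
  funext i
  have h3 := h2 i
  unfold xorV at h3
  simpa using h3

lemma Z_single {Q : ℕ} (k : Fin n) (a b : ℕ) (h : Z Q (fun i => decide (i = k)) a b ≠ 0) :
    a < Q ∧ b < Q ∧ a * Q + b = k.val := by
  unfold Z at h
  split_ifs at h with h1 h2
  · refine ⟨h1.1, h1.2.1, ?_⟩
    have := of_decide_eq_true h2
    rw [← this]
  · exact absurd rfl h
  · exact absurd rfl h

lemma S_single {Q : ℕ} (k : Fin n) (a b : ℕ) (h : S Q (fun i => decide (i = k)) a b = 1) :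
    ∃ a' b', (a' = a ∨ a' = a + 1) ∧ (b' = b ∨ b' = b + 1) ∧ b' < Q ∧ a' * Q + b' = k.val := by
  by_contra hcon
  have h0 : ∀ a' b', (a' = a ∨ a' = a + 1) → (b' = b ∨ b' = b + 1) →
      Z Q (fun i => decide (i = k)) a' b' = 0 := by
    intro a' b' ha' hb'
    by_contra hne
    have := Z_single k a' b' hne
    exact hcon ⟨a', b', ha', hb', this.2.1, this.2.2⟩
  unfold S at h
  rw [h0 a b (by simp) (by simp), h0 (a + 1) b (by simp) (by simp), h0 a (b + 1) (by simp) (by simp),
    h0 (a + 1) (b + 1) (by simp) (by simp)] at h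
  exact absurd h (by decide)

lemma LL_row {Q : ℕ} (hQ : 0 < Q) (k : Fin n) :
    (ones (LL Q (fun i => decide (i = k)))).card ≤ 4 := by
  have h1 : (ones (LL Q (fun i => decide (i = k)))).card ≤
      (({k.val / Q, k.val / Q - 1} : Finset ℕ) ×ˢ ({k.val % Q, k.val % Q - 1} : Finset ℕ)).card := by
    apply Finset.card_le_card_of_injOn (fun i : Fin n => (i.val / Q, i.val % Q))
    · intro i hi
      rw [Finset.mem_coe, ones, Finset.mem_filter] at hi
      have h2 : S Q (fun i => decide (i = k)) (i.val / Q) (i.val % Q) = 1 := of_decide_eq_true hi.2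
      obtain ⟨a', b', ha', hb', hb'Q, hk⟩ := S_single k _ _ h2
      have e1 : k.val / Q = a' := by rw [← hk]; exact div_eq hb'Q
      have e2 : k.val % Q = b' := by rw [← hk]; exact mod_eq hb'Q
      rw [Finset.mem_coe, Finset.mem_product]
      simp only [Finset.mem_insert, Finset.mem_singleton]
      rw [e1, e2]
      constructor
      · rcases ha' with h | h
        · left; exact h.symm
        · right; rw [h, Nat.add_sub_cancel]
      · rcases hb' with h | h
        · left; exact h.symm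
        · right; rw [h, Nat.add_sub_cancel]
    · intro i _ j _ hij
      simp only [Prod.mk.injEq] at hij
      apply Fin.ext
      rw [← Nat.div_add_mod i.val Q, ← Nat.div_add_mod j.val Q, hij.1, hij.2]
  refine h1.trans ?_
  rw [Finset.card_product]
  have h2 : ∀ u v : ℕ, ({u, v} : Finset ℕ).card ≤ 2 := fun u v => Finset.card_le_two
  calc _ ≤ 2 * 2 := Nat.mul_le_mul (h2 _ _) (h2 _ _)
    _ = 4 := by norm_num

lemma LL_col {Q : ℕ} (q : Fin n) :
    (univ.filter (fun i : Fin n => LL Q (fun k => decide (k = i)) q = true)).card ≤ 4 := by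
  have h1 : (univ.filter (fun i : Fin n => LL Q (fun k => decide (k = i)) q = true)).card ≤
      (({q.val / Q, q.val / Q + 1} : Finset ℕ) ×ˢ ({q.val % Q, q.val % Q + 1} : Finset ℕ)).card := by
    have h3 : ∀ i ∈ univ.filter (fun i : Fin n => LL Q (fun k => decide (k = i)) q = true),
        ∃ p ∈ (({q.val / Q, q.val / Q + 1} : Finset ℕ) ×ˢ ({q.val % Q, q.val % Q + 1} : Finset ℕ)),
          p.1 * Q + p.2 = i.val := by
      intro i hi
      rw [Finset.mem_filter] at hi
      have h2 : S Q (fun k => decide (k = i)) (q.val / Q) (q.val % Q) = 1 := of_decide_eq_true hi.2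
      obtain ⟨a', b', ha', hb', hb'Q, hk⟩ := S_single i _ _ h2
      refine ⟨(a', b'), ?_, hk⟩
      rw [Finset.mem_product]
      simp only [Finset.mem_insert, Finset.mem_singleton]
      exact ⟨ha', hb'⟩
    choose! f hf1 hf2 using h3
    apply Finset.card_le_card_of_injOn f
    · intro i hi
      exact hf1 i hi
    · intro i hi j hj hij
      apply Fin.ext
      rw [← hf2 i hi, ← hf2 j hj, hij]
  refine h1.trans ?_
  rw [Finset.card_product]
  have h2 : ∀ u v : ℕ, ({u, v} : Finset ℕ).card ≤ 2 := fun u v => Finset.card_le_two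
  calc _ ≤ 2 * 2 := Nat.mul_le_mul (h2 _ _) (h2 _ _)
    _ = 4 := by norm_num

/-! ## Sums over the square -/

lemma sum_range_mul' {M : Type} [AddCommMonoid M] (A Q : ℕ) (F : ℕ → ℕ → M) :
    ∑ k ∈ range (A * Q), F (k / Q) (k % Q) = ∑ a ∈ range A, ∑ b ∈ range Q, F a b := by
  induction A with
  | zero => simp
  | succ A ih =>
    rw [Nat.succ_mul, Finset.sum_range_add, ih, Finset.sum_range_succ]
    congr 1
    apply Finset.sum_congr rfl
    intro b hb
    rw [Finset.mem_range] at hb
    rw [div_eq hb, mod_eq hb]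

lemma sum_cells {M : Type} [AddCommMonoid M] {Q : ℕ} (hQ : 0 < Q) (hn : n + 1 = Q * Q)
    (F : ℕ → ℕ → M) (hF : F (Q - 1) (Q - 1) = 0) :
    ∑ i : Fin n, F (i.val / Q) (i.val % Q) = ∑ a ∈ range Q, ∑ b ∈ range Q, F a b := by
  rw [← sum_range_mul', ← hn, Finset.sum_range_succ, Fin.sum_univ_eq_sum_range
    (fun k => F (k / Q) (k % Q)) n]
  have h1 : n = (Q - 1) * Q + (Q - 1) := by
    obtain ⟨q, rfl⟩ : ∃ q, Q = q + 1 := ⟨Q - 1, by omega⟩
    simp only [Nat.add_sub_cancel]
    have : (q + 1) * (q + 1) = q * (q + 1) + (q + 1) := by ring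
    omega
  have h2 : n / Q = Q - 1 := by
    conv_lhs => rw [h1]
    exact div_eq (by omega)
  have h3 : n % Q = Q - 1 := by
    conv_lhs => rw [h1]
    exact mod_eq (by omega)
  rw [h2, h3, hF, add_zero]

lemma tele (f : ℕ → ZMod 2) (k : ℕ) : ∑ v ∈ range k, (f v + f (v + 1)) = f 0 + f k := by
  induction k with
  | zero => simp [CharTwo.add_self_eq_zero]
  | succ k ih =>
    rw [Finset.sum_range_succ, ih]
    have : f k + f k = 0 := CharTwo.add_self_eq_zero _
    linear_combination this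

/-- Block and position in the block. -/
def psi (g h Q : ℕ) (hg : 0 < g) (hh : 0 < h) (i : Fin n) : (Fin g × Fin g) × (Fin h × Fin h) :=
  ((⟨i.val / Q / h % g, Nat.mod_lt _ hg⟩, ⟨i.val % Q / h % g, Nat.mod_lt _ hg⟩),
    (⟨i.val / Q % h, Nat.mod_lt _ hh⟩, ⟨i.val % Q % h, Nat.mod_lt _ hh⟩))

lemma Z_van {Q h : ℕ} (x : Cube n)
    (hx : ∀ i : Fin n, (h ∣ i.val / Q ∨ h ∣ i.val % Q) → x i = false) {a b : ℕ}
    (hab : h ∣ a ∨ h ∣ b) : Z Q x a b = 0 := by
  unfold Z
  split_ifs with h1 h2
  · have h3 := hx ⟨a * Q + b, h1.2.2⟩ (by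
      simp only [div_eq h1.2.1, mod_eq h1.2.1]
      exact hab)
    rw [h3] at h2
    exact absurd h2 (by simp)
  · rfl
  · rfl

section Parity

variable {g h Q : ℕ} (hg : 0 < g) (hh : 0 < h) (hQ : Q = g * h) (hn : n + 1 = Q * Q) (x : Cube n)
  (hx : ∀ i : Fin n, (h ∣ i.val / Q ∨ h ∣ i.val % Q) → x i = false)

include hx

lemma row_sum (a j : ℕ) : ∑ v ∈ range h, S Q x a (j * h + v) = 0 := by
  have h1 : ∀ v ∈ range h, S Q x a (j * h + v) =
      (fun v => Z Q x a (j * h + v)) v + (fun v => Z Q x a (j * h + v)) (v + 1) +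
      ((fun v => Z Q x (a + 1) (j * h + v)) v + (fun v => Z Q x (a + 1) (j * h + v)) (v + 1)) := by
    intro v _
    unfold S
    simp only [add_assoc]
    abel
  rw [Finset.sum_congr rfl h1, Finset.sum_add_distrib, tele, tele]
  simp only [add_zero]
  have hd : h ∣ j * h := Dvd.intro_left j rfl
  have hd' : h ∣ j * h + h := (Nat.dvd_add_right hd).mpr dvd_rfl
  rw [Z_van x hx (Or.inr hd), Z_van x hx (Or.inr hd'), Z_van x hx (Or.inr hd),
    Z_van x hx (Or.inr hd')]
  simp

lemma col_sum (b i : ℕ) : ∑ u ∈ range h, S Q x (i * h + u) b = 0 := by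
  have h1 : ∀ u ∈ range h, S Q x (i * h + u) b =
      (fun v => Z Q x (i * h + v) b) u + (fun v => Z Q x (i * h + v) b) (u + 1) +
      ((fun v => Z Q x (i * h + v) (b + 1)) u + (fun v => Z Q x (i * h + v) (b + 1)) (u + 1)) := by
    intro v _
    unfold S
    simp only [add_assoc]
  rw [Finset.sum_congr rfl h1, Finset.sum_add_distrib, tele, tele]
  simp only [add_zero]
  have hd : h ∣ i * h := Dvd.intro_left i rfl
  have hd' : h ∣ i * h + h := (Nat.dvd_add_right hd).mpr dvd_rfl
  rw [Z_van x hx (Or.inl hd), Z_van x hx (Or.inl hd'), Z_van x hx (Or.inl hd),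
    Z_van x hx (Or.inl hd')]
  simp

include hn hQ

lemma card_cast (p : ℕ → ℕ → Prop) [∀ a b, Decidable (p a b)] :
    ((((ones (LL Q x)).filter (fun i => p (i.val / Q) (i.val % Q))).card : ℕ) : ZMod 2) =
      ∑ a ∈ range Q, ∑ b ∈ range Q, if p a b then S Q x a b else 0 := by
  have hQ0 : 0 < Q := by
    by_contra h0
    have : Q = 0 := by omega
    subst this
    simp at hn
  rw [Finset.card_filter, ones, Finset.sum_filter]
  push_cast
  have h1 : ∀ i : Fin n, (if LL Q x i = true then (if p (i.val / Q) (i.val % Q) then (1 : ZMod 2) else 0)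
      else 0) = (fun a b => if p a b then Z Q (LL Q x) a b else 0) (i.val / Q) (i.val % Q) := by
    intro i
    simp only
    rw [Z_val hQ0 hn]
    split_ifs <;> rfl
  have h2 := sum_cells hQ0 hn (fun a b => if p a b then Z Q (LL Q x) a b else 0) (by
    rw [Z_out]
    · simp
    · rintro ⟨_, _, h3⟩
      obtain ⟨q, hq⟩ : ∃ q, Q = q + 1 := ⟨Q - 1, by omega⟩
      rw [hq] at h3 hn
      simp only [Nat.add_sub_cancel] at h3
      have : (q + 1) * (q + 1) = q * (q + 1) + (q + 1) := by ring
      omega)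
  refine (Finset.sum_congr rfl (fun i _ => h1 i)).trans (h2.trans ?_)
  apply Finset.sum_congr rfl
  intro a ha
  apply Finset.sum_congr rfl
  intro b hb
  rw [Finset.mem_range] at ha hb
  rw [Z_LL hQ0 hn x ha hb]

lemma even_row (r : (Fin g × Fin g) × Fin h) :
    Even (((ones (LL Q x)).filter (fun i => ((psi g h Q hg hh i).1, (psi g h Q hg hh i).2.1) = r)).card) := by
  rw [← ZMod.natCast_eq_zero_iff_even]
  obtain ⟨⟨i0, j0⟩, u0⟩ := r
  have hfil : (ones (LL Q x)).filter (fun i => ((psi g h Q hg hh i).1, (psi g h Q hg hh i).2.1) = ((i0, j0), u0))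
      = (ones (LL Q x)).filter (fun i => (fun a b => (a / h % g = i0.val ∧ b / h % g = j0.val) ∧ a % h = u0.val)
        (i.val / Q) (i.val % Q)) := by
    apply Finset.filter_congr
    intro i _
    simp only [psi, Prod.mk.injEq, Fin.ext_iff]
  rw [hfil]
  refine (card_cast hQ hn x hx (fun a b => (a / h % g = i0.val ∧ b / h % g = j0.val) ∧
    a % h = u0.val)).trans ?_
  apply Finset.sum_eq_zero
  intro a _
  by_cases ha : a / h % g = i0.val ∧ a % h = u0.val
  · have h1 : ∀ b ∈ range Q, (if (a / h % g = i0.val ∧ b / h % g = j0.val) ∧ a % h = u0.val then S Q x a b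
        else 0) = (fun j v => if j % g = j0.val then S Q x a (j * h + v) else 0) (b / h) (b % h) := by
      intro b _
      simp only
      have h2 : b / h * h + b % h = b := by rw [mul_comm]; exact Nat.div_add_mod _ _
      rw [h2]
      apply if_congr _ rfl rfl
      tauto
    rw [Finset.sum_congr rfl h1]
    conv_lhs => rw [hQ]
    rw [← hQ, hQ, sum_range_mul' g h (fun j v => if j % g = j0.val then S (g * h) x a (j * h + v) else 0)]
    apply Finset.sum_eq_zero
    intro j _
    split_ifs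
    · have := row_sum (Q := Q) x hx a j
      rw [hQ] at this
      exact this
    · simp
  · apply Finset.sum_eq_zero
    intro b _
    rw [if_neg]
    tauto

lemma even_col (r : (Fin g × Fin g) × Fin h) :
    Even (((ones (LL Q x)).filter (fun i => ((psi g h Q hg hh i).1, (psi g h Q hg hh i).2.2) = r)).card) := by
  rw [← ZMod.natCast_eq_zero_iff_even]
  obtain ⟨⟨i0, j0⟩, u0⟩ := r
  have hfil : (ones (LL Q x)).filter (fun i => ((psi g h Q hg hh i).1, (psi g h Q hg hh i).2.2) = ((i0, j0), u0))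
      = (ones (LL Q x)).filter (fun i => (fun a b => (a / h % g = i0.val ∧ b / h % g = j0.val) ∧ b % h = u0.val)
        (i.val / Q) (i.val % Q)) := by
    apply Finset.filter_congr
    intro i _
    simp only [psi, Prod.mk.injEq, Fin.ext_iff]
  rw [hfil]
  refine (card_cast hQ hn x hx (fun a b => (a / h % g = i0.val ∧ b / h % g = j0.val) ∧
    b % h = u0.val)).trans ?_
  rw [Finset.sum_comm]
  apply Finset.sum_eq_zero
  intro b _
  by_cases hb : b / h % g = j0.val ∧ b % h = u0.val
  · have h1 : ∀ a ∈ range Q, (if (a / h % g = i0.val ∧ b / h % g = j0.val) ∧ b % h = u0.val then S Q x a b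
        else 0) = (fun j v => if j % g = i0.val then S Q x (j * h + v) b else 0) (a / h) (a % h) := by
      intro a _
      simp only
      have h2 : a / h * h + a % h = a := by rw [mul_comm]; exact Nat.div_add_mod _ _
      rw [h2]
      apply if_congr _ rfl rfl
      tauto
    rw [Finset.sum_congr rfl h1]
    conv_lhs => rw [hQ]
    rw [← hQ, hQ, sum_range_mul' g h (fun j v => if j % g = i0.val then S (g * h) x (j * h + v) b else 0)]
    apply Finset.sum_eq_zero
    intro j _
    split_ifs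
    · have := col_sum (Q := Q) x hx b j
      rw [hQ] at this
      exact this
    · simp
  · apply Finset.sum_eq_zero
    intro a _
    rw [if_neg]
    tauto

end Parity

lemma psi_inj {g h Q : ℕ} (hg : 0 < g) (hh : 0 < h) (hQ : Q = g * h) (hn : n + 1 = Q * Q) :
    Function.Injective (psi (n := n) g h Q hg hh) := by
  intro i j hij
  have hQ0 : 0 < Q := by rw [hQ]; exact Nat.mul_pos hg hh
  simp only [psi, Prod.mk.injEq, Fin.ext_iff] at hij
  obtain ⟨⟨h1, h2⟩, h3, h4⟩ := hij
  have key : ∀ k : Fin n, k.val / Q / h % g = k.val / Q / h ∧ k.val % Q / h % g = k.val % Q / h := by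
    intro k
    have hk1 : k.val % Q < Q := Nat.mod_lt _ hQ0
    have hk2 : k.val / Q < Q := by
      rw [Nat.div_lt_iff_lt_mul hQ0]
      have := k.isLt
      omega
    constructor
    · apply Nat.mod_eq_of_lt
      rw [Nat.div_lt_iff_lt_mul hh, ← hQ]
      exact hk2
    · apply Nat.mod_eq_of_lt
      rw [Nat.div_lt_iff_lt_mul hh, ← hQ]
      exact hk1
  rw [(key i).1, (key j).1] at h1
  rw [(key i).2, (key j).2] at h2
  have e1 : i.val / Q = j.val / Q := by
    rw [← Nat.div_add_mod (i.val / Q) h, ← Nat.div_add_mod (j.val / Q) h, h1, h3]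
  have e2 : i.val % Q = j.val % Q := by
    rw [← Nat.div_add_mod (i.val % Q) h, ← Nat.div_add_mod (j.val % Q) h, h2, h4]
  apply Fin.ext
  rw [← Nat.div_add_mod i.val Q, ← Nat.div_add_mod j.val Q, e1, e2]

end Pool.Agent.K1H35.ST
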