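import Pool.Agent.K1H35.ST.Even
import Pool.Agent.K1H35.ST.Lat

/-! `S_CODE` : existence of the code systems. -/

set_option autoImplicit false

noncomputable section

namespace Pool.Agent.K1H35.ST

open Finset Pool.Agent.K1H64.ST

/-- The part of `E` in the block `b`. -/
def pE {n h : ℕ} {β : Type} [DecidableEq β] (ψ : Fin n → β × (Fin h × Fin h)) (E : Finset (Fin n))
    (b : β) : Finset (Fin h × Fin h) :=
  (E.filter (fun i => (ψ i).1 = b)).image (fun i => (ψ i).2)

/-- Enumeration of the sets with even segments. -/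
lemma enum_abs {n h : ℕ} {β : Type} [Fintype β] [DecidableEq β] (ψ : Fin n → β × (Fin h × Fin h))
    (hψ : Function.Injective ψ) (𝒞 : Finset (Finset (Fin n)))
    (h1 : ∀ E ∈ 𝒞, ∀ r : β × Fin h, Even ((E.filter (fun i => ((ψ i).1, (ψ i).2.1) = r)).card))
    (h2 : ∀ E ∈ 𝒞, ∀ r : β × Fin h, Even ((E.filter (fun i => ((ψ i).1, (ψ i).2.2) = r)).card))
    (z : ℝ) (hz : 0 ≤ z) :
    ∑ E ∈ 𝒞, z ^ E.card ≤ (∑ F ∈ Ev h, z ^ F.card) ^ (Fintype.card β) := by
  have hinjon : ∀ (E : Finset (Fin n)) (b : β),
      Set.InjOn (fun i => (ψ i).2) (E.filter (fun i => (ψ i).1 = b) : Finset (Fin n)) := by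
    intro E b i hi j hj hij
    rw [Finset.mem_coe, Finset.mem_filter] at hi hj
    exact hψ (Prod.ext (hi.2.trans hj.2.symm) hij)
  have hcard : ∀ E : Finset (Fin n), ∑ b, (pE ψ E b).card = E.card := by
    intro E
    rw [Finset.card_eq_sum_card_fiberwise (f := fun i => (ψ i).1) (t := Finset.univ) (by simp)]
    apply Finset.sum_congr rfl
    intro b _
    exact Finset.card_image_of_injOn (hinjon E b)
  have hmem : ∀ (E : Finset (Fin n)) (i : Fin n), (ψ i).2 ∈ pE ψ E (ψ i).1 ↔ i ∈ E := by
    intro E i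
    unfold pE
    simp only [Finset.mem_image, Finset.mem_filter]
    constructor
    · rintro ⟨j, ⟨hj1, hj2⟩, hj3⟩
      have : j = i := hψ (Prod.ext hj2 hj3)
      rwa [← this]
    · intro hi
      exact ⟨i, ⟨hi, rfl⟩, rfl⟩
  have hinj : Function.Injective (pE ψ) := by
    intro E E' hEE
    ext i
    rw [← hmem E i, ← hmem E' i, hEE]
  have hpow : ∀ E : Finset (Fin n), z ^ E.card = ∏ b, z ^ (pE ψ E b).card := by
    intro E
    rw [Finset.prod_pow_eq_pow_sum, hcard]
  have hEv : ∀ E ∈ 𝒞, ∀ b, pE ψ E b ∈ Ev h := by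
    intro E hE b
    rw [Ev, Finset.mem_filter]
    refine ⟨Finset.mem_univ _, ?_, ?_⟩
    · intro u
      have e1 : ((pE ψ E b).filter (fun w => w.1 = u)).card =
          (E.filter (fun i => ((ψ i).1, (ψ i).2.1) = (b, u))).card := by
        unfold pE
        rw [Finset.filter_image, Finset.card_image_of_injOn]
        · congr 1
          ext i
          simp only [Finset.mem_filter, Prod.mk.injEq]
          tauto
        · apply (hinjon E b).mono
          intro i hi
          rw [Finset.mem_coe, Finset.mem_filter] at hi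
          exact hi.1
      rw [e1]
      exact h1 E hE (b, u)
    · intro u
      have e1 : ((pE ψ E b).filter (fun w => w.2 = u)).card =
          (E.filter (fun i => ((ψ i).1, (ψ i).2.2) = (b, u))).card := by
        unfold pE
        rw [Finset.filter_image, Finset.card_image_of_injOn]
        · congr 1
          ext i
          simp only [Finset.mem_filter, Prod.mk.injEq]
          tauto
        · apply (hinjon E b).mono
          intro i hi
          rw [Finset.mem_coe, Finset.mem_filter] at hi
          exact hi.1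
      rw [e1]
      exact h2 E hE (b, u)
  calc ∑ E ∈ 𝒞, z ^ E.card = ∑ E ∈ 𝒞, ∏ b, z ^ (pE ψ E b).card :=
        Finset.sum_congr rfl (fun E _ => hpow E)
    _ = ∑ p ∈ 𝒞.image (pE ψ), ∏ b, z ^ (p b).card := by
        rw [Finset.sum_image (fun _ _ _ _ h => hinj h)]
    _ ≤ ∑ p ∈ Fintype.piFinset (fun _ : β => Ev h), ∏ b, z ^ (p b).card := by
        apply Finset.sum_le_sum_of_subset_of_nonneg
        · intro p hp
          rw [Finset.mem_image] at hp
          obtain ⟨E, hE, rfl⟩ := hp
          rw [Fintype.mem_piFinset]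
          exact hEv E hE
        · intro p _ _
          exact Finset.prod_nonneg (fun b _ => pow_nonneg hz _)
    _ = ∏ _b : β, ∑ F ∈ Ev h, z ^ F.card :=
        (Finset.prod_univ_sum (fun _ : β => Ev h) (fun _ F => z ^ F.card)).symm
    _ = _ := by rw [Finset.prod_const, Finset.card_univ]

/-- The number of injective tuples in a finite set. -/
lemma card_inj_tuples {n j : ℕ} (E : Finset (Fin n)) :
    (univ.filter (fun t : Fin j → Fin n => Function.Injective t ∧ ∀ a, t a ∈ E)).card =
      E.card.descFactorial j := by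
  classical
  have h1 : Fintype.card (Fin j ↪ E) = E.card.descFactorial j := by
    rw [Fintype.card_embedding_eq, Fintype.card_fin, Fintype.card_coe]
  rw [← h1, ← Finset.card_univ]
  symm
  apply Finset.card_bij (fun (f : Fin j ↪ E) _ => fun a => (f a : Fin n))
  · intro f _
    rw [Finset.mem_filter]
    refine ⟨Finset.mem_univ _, ?_, fun a => (f a).2⟩
    intro a b hab
    exact f.injective (Subtype.ext hab)
  · intro f _ f' _ hff
    ext a
    exact congrArg Fin.val (congrFun hff a)
  · intro t ht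
    rw [Finset.mem_filter] at ht
    refine ⟨⟨fun a => ⟨t a, ht.2.2 a⟩, ?_⟩, Finset.mem_univ _, rfl⟩
    intro a b hab
    exact ht.2.1 (congrArg Subtype.val hab)

/-- `S_TUP` in the form used. -/
lemma tup_le (hT : S_TUP) {ι : Type} [Fintype ι] [DecidableEq ι] [Nonempty ι] (j : ℕ) (v : Finset ι) :
    (((univ.filter (fun t : Fin j → ι =>
      ∀ r, Odd ((univ.filter (fun a => t a = r)).card) ↔ r ∈ v)).card : ℝ)) ≤
        (j.factorial : ℝ) * (Real.sqrt (Fintype.card ι)) ^ j := by
  have h1 := hT ι j v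
  have h2 : (1:ℝ) ≤ Real.sqrt (Fintype.card ι) := by
    rw [Real.one_le_sqrt]
    exact_mod_cast Fintype.card_pos
  have h3 : (1:ℝ) ≤ (Real.sqrt (Fintype.card ι)) ^ v.card := one_le_pow₀ h2
  refine le_trans ?_ h1
  exact le_mul_of_one_le_right (Nat.cast_nonneg _) h3

/-- Sparsity. -/
lemma sparse_abs (hT : S_TUP) {n k j : ℕ} {R1 R2 : Type} [Fintype R1] [DecidableEq R1] [Nonempty R1]
    [Fintype R2] [DecidableEq R2] [Nonempty R2] (ρ : Fin n → R1) (κ : Fin n → R2)
    (hinj : ∀ i i', ρ i = ρ i' → κ i = κ i' → i = i') (𝒞 : Finset (Finset (Fin n)))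
    (hk : ∀ E ∈ 𝒞, E.card = k)
    (h1 : ∀ E ∈ 𝒞, ∀ r, Even ((E.filter (fun i => ρ i = r)).card))
    (h2 : ∀ E ∈ 𝒞, ∀ r, Even ((E.filter (fun i => κ i = r)).card)) :
    (𝒞.card : ℝ) * (k.descFactorial j : ℝ) ≤ (n.choose (k - j) : ℝ) *
      (((j.factorial : ℝ) * (Real.sqrt (Fintype.card R1)) ^ j) *
        ((j.factorial : ℝ) * (Real.sqrt (Fintype.card R2)) ^ j)) := by
  classical
  -- the pairs
  set P : Finset (Finset (Fin n) × (Fin j → Fin n)) := (𝒞 ×ˢ univ).filter
    (fun q => Function.Injective q.2 ∧ ∀ a, q.2 a ∈ q.1) with hP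
  have hPcard : P.card = 𝒞.card * k.descFactorial j := by
    rw [hP, Finset.card_filter, Finset.sum_product]
    have : ∀ E ∈ 𝒞, (∑ t : Fin j → Fin n, if Function.Injective (E, t).2 ∧ ∀ a, (E, t).2 a ∈ (E, t).1
        then 1 else 0) = k.descFactorial j := by
      intro E hE
      rw [← Finset.card_filter, card_inj_tuples, hk E hE]
    rw [Finset.sum_congr rfl this, Finset.sum_const, smul_eq_mul]
  -- the target
  set odd1 : Finset (Fin n) → Finset R1 := fun E1 => univ.filter (fun r => Odd ((E1.filter (fun i => ρ i = r)).card))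
    with hodd1
  set odd2 : Finset (Fin n) → Finset R2 := fun E1 => univ.filter (fun r => Odd ((E1.filter (fun i => κ i = r)).card))
    with hodd2
  set Tt : Finset (Fin n) → Finset (Fin j → Fin n) := fun E1 => univ.filter (fun t =>
    (∀ r, Odd ((univ.filter (fun a => ρ (t a) = r)).card) ↔ r ∈ odd1 E1) ∧
    (∀ r, Odd ((univ.filter (fun a => κ (t a) = r)).card) ↔ r ∈ odd2 E1)) with hTt
  have hTcard : ∀ E1, ((Tt E1).card : ℝ) ≤ ((j.factorial : ℝ) * (Real.sqrt (Fintype.card R1)) ^ j) *
        ((j.factorial : ℝ) * (Real.sqrt (Fintype.card R2)) ^ j) := by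
    intro E1
    have e1 : (Tt E1).card ≤ ((univ.filter (fun t : Fin j → R1 =>
        ∀ r, Odd ((univ.filter (fun a => t a = r)).card) ↔ r ∈ odd1 E1)) ×ˢ
        (univ.filter (fun t : Fin j → R2 =>
        ∀ r, Odd ((univ.filter (fun a => t a = r)).card) ↔ r ∈ odd2 E1))).card := by
      apply Finset.card_le_card_of_injOn (fun t => (fun a => ρ (t a), fun a => κ (t a)))
      · intro t ht
        rw [Finset.mem_coe, hTt, Finset.mem_filter] at ht
        rw [Finset.mem_coe, Finset.mem_product, Finset.mem_filter, Finset.mem_filter]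
        exact ⟨⟨Finset.mem_univ _, ht.2.1⟩, ⟨Finset.mem_univ _, ht.2.2⟩⟩
      · intro t _ t' _ htt
        simp only [Prod.mk.injEq] at htt
        funext a
        exact hinj _ _ (congrFun htt.1 a) (congrFun htt.2 a)
    rw [Finset.card_product] at e1
    calc ((Tt E1).card : ℝ) ≤ (((univ.filter (fun t : Fin j → R1 =>
        ∀ r, Odd ((univ.filter (fun a => t a = r)).card) ↔ r ∈ odd1 E1)).card : ℕ) : ℝ) *
        (((univ.filter (fun t : Fin j → R2 =>
        ∀ r, Odd ((univ.filter (fun a => t a = r)).card) ↔ r ∈ odd2 E1)).card : ℕ) : ℝ) := by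
          exact_mod_cast e1
      _ ≤ _ := by
          apply mul_le_mul (tup_le hT j _) (tup_le hT j _) (Nat.cast_nonneg _)
          positivity
  have hPle : P.card ≤ ∑ E1 ∈ powersetCard (k - j) (univ : Finset (Fin n)), (Tt E1).card := by
    rw [← Finset.card_sigma]
    apply Finset.card_le_card_of_injOn (fun q => (⟨q.1 \ univ.image q.2, q.2⟩ :
      (_ : Finset (Fin n)) × (Fin j → Fin n)))
    · intro q hq
      rw [Finset.mem_coe, hP, Finset.mem_filter, Finset.mem_product] at hq
      obtain ⟨⟨hq1, _⟩, hq3, hq4⟩ := hq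
      have himg : univ.image q.2 ⊆ q.1 := by
        intro i hi
        rw [Finset.mem_image] at hi
        obtain ⟨a, _, rfl⟩ := hi
        exact hq4 a
      have hcimg : (univ.image q.2).card = j := by
        rw [Finset.card_image_of_injective _ hq3, Finset.card_univ, Fintype.card_fin]
      rw [Finset.mem_coe, Finset.mem_sigma]
      refine ⟨?_, ?_⟩
      · rw [Finset.mem_powersetCard]
        refine ⟨Finset.subset_univ _, ?_⟩
        rw [Finset.card_sdiff_of_subset himg, hcimg, hk _ hq1]
      · have hpar : ∀ {R : Type} [DecidableEq R] (τ : Fin n → R),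
            (∀ r, Even ((q.1.filter (fun i => τ i = r)).card)) → ∀ r,
            (Odd ((univ.filter (fun a => τ (q.2 a) = r)).card) ↔
              Odd (((q.1 \ univ.image q.2).filter (fun i => τ i = r)).card)) := by
          intro R _ τ hτ r
          have e1 : (q.1.filter (fun i => τ i = r)).card =
              ((q.1 \ univ.image q.2).filter (fun i => τ i = r)).card +
              ((univ.image q.2).filter (fun i => τ i = r)).card := by
            conv_lhs => rw [← Finset.sdiff_union_of_subset himg]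
            rw [Finset.filter_union, Finset.card_union_of_disjoint]
            apply Finset.disjoint_filter_filter
            exact Finset.sdiff_disjoint
          have e2 : ((univ.image q.2).filter (fun i => τ i = r)).card =
              (univ.filter (fun a => τ (q.2 a) = r)).card := by
            rw [Finset.filter_image, Finset.card_image_of_injective _ hq3]
          rw [e2] at e1
          have e3 := hτ r
          rw [e1, Nat.even_add] at e3
          rw [← Nat.not_even_iff_odd, ← Nat.not_even_iff_odd, e3]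
        rw [hTt]
        simp only [Finset.mem_filter, Finset.mem_univ, true_and]
        refine ⟨fun r => ?_, fun r => ?_⟩
        · rw [hodd1]
          simp only [Finset.mem_filter, Finset.mem_univ, true_and]
          exact hpar ρ (h1 _ hq1) r
        · rw [hodd2]
          simp only [Finset.mem_filter, Finset.mem_univ, true_and]
          exact hpar κ (h2 _ hq1) r
    · intro q hq q' hq' hqq
      rw [Finset.mem_coe, hP, Finset.mem_filter, Finset.mem_product] at hq hq'
      simp only [Sigma.mk.injEq, heq_eq_eq] at hqq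
      have himg : ∀ q : Finset (Fin n) × (Fin j → Fin n), (∀ a, q.2 a ∈ q.1) →
          q.1 = (q.1 \ univ.image q.2) ∪ univ.image q.2 := by
        intro q hq
        rw [Finset.sdiff_union_of_subset]
        intro i hi
        rw [Finset.mem_image] at hi
        obtain ⟨a, _, rfl⟩ := hi
        exact hq a
      apply Prod.ext
      · rw [himg q hq.2.2, himg q' hq'.2.2, hqq.1, hqq.2]
      · exact hqq.2
  have hfinal : (P.card : ℝ) ≤ (n.choose (k - j) : ℝ) *
      (((j.factorial : ℝ) * (Real.sqrt (Fintype.card R1)) ^ j) *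
        ((j.factorial : ℝ) * (Real.sqrt (Fintype.card R2)) ^ j)) := by
    calc (P.card : ℝ) ≤ ((∑ E1 ∈ powersetCard (k - j) (univ : Finset (Fin n)), (Tt E1).card : ℕ) : ℝ) := by
          exact_mod_cast hPle
      _ = ∑ E1 ∈ powersetCard (k - j) (univ : Finset (Fin n)), ((Tt E1).card : ℝ) := by push_cast; rfl
      _ ≤ ∑ E1 ∈ powersetCard (k - j) (univ : Finset (Fin n)),
          (((j.factorial : ℝ) * (Real.sqrt (Fintype.card R1)) ^ j) *
        ((j.factorial : ℝ) * (Real.sqrt (Fintype.card R2)) ^ j)) :=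
          Finset.sum_le_sum (fun E1 _ => hTcard E1)
      _ = _ := by
          rw [Finset.sum_const, Finset.card_powersetCard, Finset.card_univ, Fintype.card_fin,
            nsmul_eq_mul]
  rw [hPcard] at hfinal
  push_cast at hfinal
  exact hfinal

/-- The sets `B c`. -/
def BB (β m n : ℕ) (c : ℕ) : Finset (Fin n) :=
  if c + β ≤ m then univ.filter (fun i => 2 ^ (m - (c + β)) ∣ i.val / 2 ^ m ∨
    2 ^ (m - (c + β)) ∣ i.val % 2 ^ m) else univ

lemma BB_mono (β m n c : ℕ) : BB β m n c ⊆ BB β m n (c + 1) := by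
  unfold BB
  by_cases h1 : c + 1 + β ≤ m
  · rw [if_pos h1, if_pos (by omega)]
    intro i hi
    rw [Finset.mem_filter] at hi ⊢
    have hd : 2 ^ (m - (c + 1 + β)) ∣ 2 ^ (m - (c + β)) := pow_dvd_pow 2 (by omega)
    refine ⟨Finset.mem_univ _, ?_⟩
    rcases hi.2 with h | h
    · left; exact hd.trans h
    · right; exact hd.trans h
  · rw [if_neg h1]
    exact Finset.subset_univ _

lemma BB_card {β m n : ℕ} (hn : n + 1 = 4 ^ m) (c : ℕ) :
    ((BB β m n c).card : ℝ) ≤ 2 ^ (c + β + 2) * 2 ^ m := by
  have h4 : (4:ℕ) ^ m = 2 ^ m * 2 ^ m := by rw [← mul_pow]; norm_num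
  have hQ0 : 0 < 2 ^ m := by positivity
  have hnat : (BB β m n c).card ≤ 2 ^ (c + β + 2) * 2 ^ m := by
    unfold BB
    split_ifs with h1
    · have hQ : 2 ^ m = 2 ^ (c + β) * 2 ^ (m - (c + β)) := by
        rw [← pow_add]; congr 1; omega
      have hh : 0 < 2 ^ (m - (c + β)) := by positivity
      generalize 2 ^ (m - (c + β)) = h at hQ hh
      rw [Finset.filter_or]
      refine (Finset.card_union_le _ _).trans ?_
      have e1 : (univ.filter (fun i : Fin n => h ∣ i.val / 2 ^ m)).card ≤ 2 ^ (c + β) * 2 ^ m := by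
        calc (univ.filter (fun i : Fin n => h ∣ i.val / 2 ^ m)).card
            ≤ (range (2 ^ (c + β)) ×ˢ range (2 ^ m)).card := by
              apply Finset.card_le_card_of_injOn (fun i : Fin n => (i.val / 2 ^ m / h, i.val % 2 ^ m))
              · intro i hi
                rw [Finset.mem_coe, Finset.mem_filter] at hi
                rw [Finset.mem_coe, Finset.mem_product, Finset.mem_range, Finset.mem_range]
                refine ⟨?_, Nat.mod_lt _ hQ0⟩
                simp only
                rw [Nat.div_lt_iff_lt_mul hh, ← hQ, Nat.div_lt_iff_lt_mul hQ0, ← h4]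
                have := i.isLt
                omega
              · intro i hi j hj hij
                rw [Finset.mem_coe, Finset.mem_filter] at hi hj
                simp only [Prod.mk.injEq] at hij
                apply Fin.ext
                have e2 : i.val / 2 ^ m = j.val / 2 ^ m := by
                  rw [← Nat.div_mul_cancel hi.2, ← Nat.div_mul_cancel hj.2, hij.1]
                rw [← Nat.div_add_mod i.val (2 ^ m), ← Nat.div_add_mod j.val (2 ^ m), e2, hij.2]
          _ = 2 ^ (c + β) * 2 ^ m := by simp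
      have e2 : (univ.filter (fun i : Fin n => h ∣ i.val % 2 ^ m)).card ≤ 2 ^ m * 2 ^ (c + β) := by
        calc (univ.filter (fun i : Fin n => h ∣ i.val % 2 ^ m)).card
            ≤ (range (2 ^ m) ×ˢ range (2 ^ (c + β))).card := by
              apply Finset.card_le_card_of_injOn (fun i : Fin n => (i.val / 2 ^ m, i.val % 2 ^ m / h))
              · intro i hi
                rw [Finset.mem_coe, Finset.mem_filter] at hi
                rw [Finset.mem_coe, Finset.mem_product, Finset.mem_range, Finset.mem_range]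
                simp only
                refine ⟨?_, ?_⟩
                · rw [Nat.div_lt_iff_lt_mul hQ0, ← h4]
                  have := i.isLt
                  omega
                · rw [Nat.div_lt_iff_lt_mul hh, ← hQ]
                  exact Nat.mod_lt _ hQ0
              · intro i hi j hj hij
                rw [Finset.mem_coe, Finset.mem_filter] at hi hj
                simp only [Prod.mk.injEq] at hij
                apply Fin.ext
                have e2 : i.val % 2 ^ m = j.val % 2 ^ m := by
                  rw [← Nat.div_mul_cancel hi.2, ← Nat.div_mul_cancel hj.2, hij.2]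
                rw [← Nat.div_add_mod i.val (2 ^ m), ← Nat.div_add_mod j.val (2 ^ m), e2, hij.1]
          _ = 2 ^ m * 2 ^ (c + β) := by simp
      have e3 : 2 ^ (c + β + 2) * 2 ^ m = 4 * (2 ^ (c + β) * 2 ^ m) := by rw [pow_add]; ring
      rw [e3]
      rw [mul_comm (2 ^ m) (2 ^ (c + β))] at e2
      omega
    · rw [Finset.card_univ, Fintype.card_fin]
      have e1 : 2 ^ m ≤ 2 ^ (c + β + 2) := Nat.pow_le_pow_right (by norm_num) (by omega)
      have e2 : 2 ^ m * 2 ^ m ≤ 2 ^ (c + β + 2) * 2 ^ m := Nat.mul_le_mul_right _ e1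
      omega
  exact_mod_cast hnat

theorem t_CODE (hT : S_TUP) : S_CODE := by
  classical
  intro β hβ
  refine ⟨fun j => (j.factorial : ℝ) ^ 2 * 2 ^ ((β + 1) * j), fun m n hm hn => ?_⟩
  have h4 : (4:ℕ) ^ m = 2 ^ m * 2 ^ m := by rw [← mul_pow]; norm_num
  have hQ0 : 0 < 2 ^ m := by positivity
  have hnQ : n + 1 = 2 ^ m * 2 ^ m := by rw [hn, h4]
  refine ⟨LL (2 ^ m), BB β m n, ?_, LL_lin _, LL_row hQ0, LL_col, BB_mono β m n, BB_card hn, ?_, ?_⟩
  · exact LL_bij hQ0 hnQ
  · intro c hc z hz hz2
    have hQ : 2 ^ m = 2 ^ (c + β) * 2 ^ (m - (c + β)) := by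
      rw [← pow_add]; congr 1; omega
    have hg : 0 < 2 ^ (c + β) := by positivity
    have hh : 0 < 2 ^ (m - (c + β)) := by positivity
    have hx : ∀ x : Cube n, (∀ i ∈ BB β m n c, x i = false) → ∀ i : Fin n,
        (2 ^ (m - (c + β)) ∣ i.val / 2 ^ m ∨ 2 ^ (m - (c + β)) ∣ i.val % 2 ^ m) → x i = false := by
      intro x hx i hi
      apply hx
      unfold BB
      rw [if_pos hc, Finset.mem_filter]
      exact ⟨Finset.mem_univ _, hi⟩
    have hcode : ∀ E ∈ code (LL (n := n) (2 ^ m)) (BB β m n c), ∃ x : Cube n, (∀ i ∈ BB β m n c, x i = false) ∧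
        E = ones (LL (2 ^ m) x) := by
      intro E hE
      unfold code at hE
      rw [Finset.mem_image] at hE
      obtain ⟨x, hx1, rfl⟩ := hE
      rw [Finset.mem_filter] at hx1
      exact ⟨x, hx1.2.1, rfl⟩
    have h1 := enum_abs (psi (n := n) (2 ^ (c + β)) (2 ^ (m - (c + β))) (2 ^ m) hg hh)
      (psi_inj hg hh hQ hnQ) (code (LL (n := n) (2 ^ m)) (BB β m n c))
      (by
        intro E hE r
        obtain ⟨x, hx1, rfl⟩ := hcode E hE
        exact even_row hg hh hQ hnQ x (hx x hx1) r)
      (by
        intro E hE r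
        obtain ⟨x, hx1, rfl⟩ := hcode E hE
        exact even_col hg hh hQ hnQ x (hx x hx1) r) z hz
    refine h1.trans ?_
    have h2 : ∑ F ∈ Ev (2 ^ (m - (c + β))), z ^ F.card ≤ 2 := by
      apply gen_le _ hh z hz
      push_cast
      have hp : (0:ℝ) < 2 ^ (c + β) := by positivity
      have e1 : (2:ℝ) ^ (c + β) * (2 ^ (m - (c + β)) * z) ≤ 2 ^ (c + β) * (1 / 2) := by
        have e2 : (2:ℝ) ^ m = 2 ^ (c + β) * 2 ^ (m - (c + β)) := by exact_mod_cast hQ
        rw [← mul_assoc, ← e2, pow_add]
        linarith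
      exact le_of_mul_le_mul_left e1 hp
    have h3 : Fintype.card (Fin (2 ^ (c + β)) × Fin (2 ^ (c + β))) = 4 ^ (c + β) := by
      rw [Fintype.card_prod, Fintype.card_fin, ← mul_pow]
      norm_num
    rw [h3]
    apply pow_le_pow_left₀ _ h2
    exact Finset.sum_nonneg (fun F _ => pow_nonneg hz _)
  · intro j k hjk hkn
    have hc : 0 + β ≤ m := by omega
    have hQ : 2 ^ m = 2 ^ (0 + β) * 2 ^ (m - (0 + β)) := by
      rw [← pow_add]; congr 1; omega
    have hg : 0 < 2 ^ (0 + β) := by positivity
    have hh : 0 < 2 ^ (m - (0 + β)) := by positivity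
    have hx : ∀ x : Cube n, (∀ i ∈ BB β m n 0, x i = false) → ∀ i : Fin n,
        (2 ^ (m - (0 + β)) ∣ i.val / 2 ^ m ∨ 2 ^ (m - (0 + β)) ∣ i.val % 2 ^ m) → x i = false := by
      intro x hx i hi
      apply hx
      unfold BB
      rw [if_pos hc, Finset.mem_filter]
      exact ⟨Finset.mem_univ _, hi⟩
    have hcode : ∀ E ∈ (code (LL (n := n) (2 ^ m)) (BB β m n 0)).filter (fun E => E.card = k),
        ∃ x : Cube n, (∀ i ∈ BB β m n 0, x i = false) ∧ E = ones (LL (2 ^ m) x) := by
      intro E hE
      rw [Finset.mem_filter] at hE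
      unfold code at hE
      rw [Finset.mem_image] at hE
      obtain ⟨⟨x, hx1, rfl⟩, _⟩ := hE
      rw [Finset.mem_filter] at hx1
      exact ⟨x, hx1.2.1, rfl⟩
    have : Nonempty (Fin (2 ^ (0 + β))) := ⟨⟨0, hg⟩⟩
    have : Nonempty (Fin (2 ^ (m - (0 + β)))) := ⟨⟨0, hh⟩⟩
    have h1 := sparse_abs hT (k := k) (j := j)
      (fun i : Fin n => ((psi (2 ^ (0 + β)) (2 ^ (m - (0 + β))) (2 ^ m) hg hh i).1,
        (psi (2 ^ (0 + β)) (2 ^ (m - (0 + β))) (2 ^ m) hg hh i).2.1))
      (fun i : Fin n => ((psi (2 ^ (0 + β)) (2 ^ (m - (0 + β))) (2 ^ m) hg hh i).1,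
        (psi (2 ^ (0 + β)) (2 ^ (m - (0 + β))) (2 ^ m) hg hh i).2.2))
      (by
        intro i i' hi hi'
        simp only [Prod.mk.injEq] at hi hi'
        apply psi_inj hg hh hQ hnQ
        exact Prod.ext hi.1 (Prod.ext hi.2 hi'.2))
      ((code (LL (n := n) (2 ^ m)) (BB β m n 0)).filter (fun E => E.card = k))
      (by
        intro E hE
        exact (Finset.mem_filter.mp hE).2)
      (by
        intro E hE r
        obtain ⟨x, hx1, rfl⟩ := hcode E hE
        exact even_row hg hh hQ hnQ x (hx x hx1) r)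
      (by
        intro E hE r
        obtain ⟨x, hx1, rfl⟩ := hcode E hE
        exact even_col hg hh hQ hnQ x (hx x hx1) r)
    have hR : (Fintype.card ((Fin (2 ^ (0 + β)) × Fin (2 ^ (0 + β))) × Fin (2 ^ (m - (0 + β)))) : ℝ) =
        2 ^ (m + β) := by
      rw [Fintype.card_prod, Fintype.card_prod, Fintype.card_fin, Fintype.card_fin]
      push_cast
      rw [← pow_add, ← pow_add]
      congr 1
      omega
    rw [hR] at h1
    have hsq : (Real.sqrt (2 ^ (m + β))) ^ j * (Real.sqrt (2 ^ (m + β))) ^ j = 2 ^ (m * j) * 2 ^ (β * j) := by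
      rw [← mul_pow, Real.mul_self_sqrt (by positivity), ← pow_mul, ← pow_add]
      congr 1
      ring
    have h1' : ((((code (LL (n := n) (2 ^ m)) (BB β m n 0)).filter (fun E => E.card = k)).card : ℕ) : ℝ) *
        (k.descFactorial j : ℝ) ≤ (n.choose (k - j) : ℝ) * ((j.factorial : ℝ) ^ 2 *
          (2 ^ (m * j) * 2 ^ (β * j))) := by
      refine h1.trans (le_of_eq ?_)
      rw [← hsq]
      ring
    -- comparison of binomial coefficients
    have hkn' : k ≤ n := by
      have : 4 ≤ n + 1 := by
        rw [hn]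
        calc 4 = 4 ^ 1 := by norm_num
          _ ≤ 4 ^ m := Nat.pow_le_pow_right (by norm_num) (by omega)
      omega
    have hch : n.choose k * k.descFactorial j = n.choose (k - j) * (n - k + j).descFactorial j := by
      rw [Nat.descFactorial_eq_factorial_mul_choose, Nat.descFactorial_eq_factorial_mul_choose]
      have e1 := Nat.choose_mul (n := n) (k := k) (s := k - j) (by omega)
      have e2 : n - (k - j) = n - k + j := by omega
      have e3 : k - (k - j) = j := by omega
      rw [e2, e3, Nat.choose_symm hjk] at e1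
      calc n.choose k * (j.factorial * k.choose j) = j.factorial * (n.choose k * k.choose j) := by ring
        _ = j.factorial * (n.choose (k - j) * (n - k + j).choose j) := by rw [e1]
        _ = _ := by ring
    have hdf : (n - k + 1) ^ j ≤ (n - k + j).descFactorial j := by
      have := Nat.pow_sub_le_descFactorial (n - k + j) j
      have e1 : n - k + j + 1 - j = n - k + 1 := by omega
      rwa [e1] at this
    have hbig : 2 ^ m * 2 ^ m ≤ 2 * (n - k + 1) := by
      rw [← hnQ]; omega
    have hbig2 : (2 ^ m * 2 ^ m) ^ j ≤ 2 ^ j * (n - k + j).descFactorial j := by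
      calc (2 ^ m * 2 ^ m) ^ j ≤ (2 * (n - k + 1)) ^ j := Nat.pow_le_pow_left hbig j
        _ = 2 ^ j * (n - k + 1) ^ j := by rw [mul_pow]
        _ ≤ _ := Nat.mul_le_mul_left _ hdf
    have hsqn : Real.sqrt ((n : ℝ) + 1) = 2 ^ m := by
      have : (n : ℝ) + 1 = 2 ^ m * 2 ^ m := by exact_mod_cast hnQ
      rw [this, Real.sqrt_mul_self (by positivity)]
    rw [hsqn, le_div_iff₀ (by positivity)]
    have hdpos : (0:ℝ) < (k.descFactorial j : ℝ) := by
      have : 0 < k.descFactorial j := by
        rw [Nat.pos_iff_ne_zero, Ne, Nat.descFactorial_eq_zero_iff_lt]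
        omega
      exact_mod_cast this
    apply le_of_mul_le_mul_right _ hdpos
    set N : ℝ := ((((code (LL (n := n) (2 ^ m)) (BB β m n 0)).filter (fun E => E.card = k)).card : ℕ) : ℝ)
    have hchR : (n.choose k : ℝ) * (k.descFactorial j : ℝ) =
        (n.choose (k - j) : ℝ) * ((n - k + j).descFactorial j : ℝ) := by exact_mod_cast hch
    have hbigR : ((2:ℝ) ^ m * 2 ^ m) ^ j ≤ 2 ^ j * ((n - k + j).descFactorial j : ℝ) := by
      exact_mod_cast hbig2
    calc N * (2 ^ m) ^ j * (k.descFactorial j : ℝ) = (N * (k.descFactorial j : ℝ)) * (2 ^ m) ^ j := by ring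
      _ ≤ ((n.choose (k - j) : ℝ) * ((j.factorial : ℝ) ^ 2 * (2 ^ (m * j) * 2 ^ (β * j)))) * (2 ^ m) ^ j := by
          gcongr
      _ = (n.choose (k - j) : ℝ) * (j.factorial : ℝ) ^ 2 * 2 ^ (β * j) * ((2 ^ m * 2 ^ m) ^ j) := by
          rw [mul_pow, pow_mul]; ring
      _ ≤ (n.choose (k - j) : ℝ) * (j.factorial : ℝ) ^ 2 * 2 ^ (β * j) *
          (2 ^ j * ((n - k + j).descFactorial j : ℝ)) := by
          gcongr
      _ = (j.factorial : ℝ) ^ 2 * 2 ^ ((β + 1) * j) * ((n.choose (k - j) : ℝ) *
          ((n - k + j).descFactorial j : ℝ)) := by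
          rw [add_mul, one_mul, pow_add]; ring
      _ = _ := by rw [← hchR]; ring

end Pool.Agent.K1H35.ST
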