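import Pool.Agent.K1H64.ST.Defs

/-! Generating function of the subsets of an `h × h` block with all rows and columns even. -/

set_option autoImplicit false

noncomputable section

namespace Pool.Agent.K1H35.ST

open Finset

/-- The real sign of a bit. -/
def eb (b : Bool) : ℝ := if b then 1 else -1

lemma eb_true : eb true = 1 := rfl
lemma eb_false : eb false = -1 := rfl

/-- Sum over sign vectors of the exponential of a linear form. -/
lemma sum_exp_lin (h : ℕ) (y : ℝ) :
    ∑ τ : Fin h → Bool, Real.exp (y * ∑ v, eb (τ v)) = (2 * Real.cosh y) ^ h := by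
  have h1 : ∀ τ : Fin h → Bool, Real.exp (y * ∑ v, eb (τ v)) = ∏ v, Real.exp (y * eb (τ v)) := by
    intro τ
    rw [Finset.mul_sum, Real.exp_sum]
  simp_rw [h1]
  have h2 := (Finset.prod_univ_sum (fun _ : Fin h => (Finset.univ : Finset Bool))
    (fun _ b => Real.exp (y * eb b)))
  rw [Fintype.piFinset_univ] at h2
  rw [← h2]
  simp only [Finset.prod_const, Finset.card_univ, Fintype.card_fin]
  congr 1
  rw [Real.cosh_eq]
  simp [eb]
  ring

/-- The exponential square moment of a sum of signs. -/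
lemma sum_exp_sq (h : ℕ) : ∀ T : ℝ, 2 * h < T →
    ∑ σ : Fin h → Bool, Real.exp ((∑ v, eb (σ v)) ^ 2 / T) ≤ 2 ^ h * Real.exp (h / (T - 2 * h)) := by
  induction h with
  | zero =>
    intro T hT
    simp
  | succ h ih =>
    intro T hT
    push_cast at hT
    have hT0 : 2 < T := by
      have : (0:ℝ) ≤ h := Nat.cast_nonneg h
      linarith
    have hTh : 2 * (h : ℝ) < T - 2 := by linarith
    have key : ∀ S : ℝ, Real.exp ((1 + S) ^ 2 / T) + Real.exp ((-1 + S) ^ 2 / T) ≤
        2 * Real.exp (1 / T) * Real.exp (S ^ 2 / (T - 2)) := by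
      intro S
      have e1 : (1 + S) ^ 2 / T = 1 / T + S ^ 2 / T + 2 * S / T := by ring
      have e2 : (-1 + S) ^ 2 / T = 1 / T + S ^ 2 / T + -(2 * S / T) := by ring
      rw [e1, e2, Real.exp_add _ (2 * S / T), Real.exp_add _ (-(2 * S / T)), ← mul_add]
      have e3 : Real.exp (2 * S / T) + Real.exp (-(2 * S / T)) = 2 * Real.cosh (2 * S / T) := by
        rw [Real.cosh_eq]; ring
      rw [e3, Real.exp_add]
      have e4 : Real.cosh (2 * S / T) ≤ Real.exp ((2 * S / T) ^ 2 / 2) := Real.cosh_le_exp_half_sq _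
      have e5 : Real.exp (S ^ 2 / T) * Real.exp ((2 * S / T) ^ 2 / 2) ≤ Real.exp (S ^ 2 / (T - 2)) := by
        rw [← Real.exp_add]
        apply Real.exp_le_exp.mpr
        have hT2 : 0 < T - 2 := by linarith
        have hTp : 0 < T := by linarith
        have e6 : S ^ 2 / T + (2 * S / T) ^ 2 / 2 = S ^ 2 * ((T + 2) / T ^ 2) := by
          field_simp
        rw [e6, div_eq_mul_inv (S ^ 2)]
        apply mul_le_mul_of_nonneg_left _ (sq_nonneg S)
        rw [inv_eq_one_div, div_le_div_iff₀ (by positivity) hT2]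
        nlinarith
      calc Real.exp (1 / T) * Real.exp (S ^ 2 / T) * (2 * Real.cosh (2 * S / T))
          = 2 * Real.exp (1 / T) * (Real.exp (S ^ 2 / T) * Real.cosh (2 * S / T)) := by ring
        _ ≤ 2 * Real.exp (1 / T) * (Real.exp (S ^ 2 / T) * Real.exp ((2 * S / T) ^ 2 / 2)) := by
            gcongr
        _ ≤ 2 * Real.exp (1 / T) * Real.exp (S ^ 2 / (T - 2)) := by
            gcongr
    have hsplit : ∑ σ : Fin (h + 1) → Bool, Real.exp ((∑ v, eb (σ v)) ^ 2 / T) =
        ∑ σ : Fin h → Bool, (Real.exp ((1 + ∑ v, eb (σ v)) ^ 2 / T) +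
          Real.exp ((-1 + ∑ v, eb (σ v)) ^ 2 / T)) := by
      rw [← (Fin.consEquiv (fun _ => Bool)).sum_comp, Fintype.sum_prod_type, Finset.sum_comm]
      apply Finset.sum_congr rfl
      intro σ _
      simp only [Fintype.sum_bool, Fin.consEquiv_apply, Fin.sum_univ_succ, Fin.cons_zero,
        Fin.cons_succ, eb_true, eb_false]
    rw [hsplit]
    calc ∑ σ : Fin h → Bool, (Real.exp ((1 + ∑ v, eb (σ v)) ^ 2 / T) +
          Real.exp ((-1 + ∑ v, eb (σ v)) ^ 2 / T))
        ≤ ∑ σ : Fin h → Bool, 2 * Real.exp (1 / T) * Real.exp ((∑ v, eb (σ v)) ^ 2 / (T - 2)) :=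
          Finset.sum_le_sum (fun σ _ => key _)
      _ = 2 * Real.exp (1 / T) * ∑ σ : Fin h → Bool, Real.exp ((∑ v, eb (σ v)) ^ 2 / (T - 2)) := by
          rw [Finset.mul_sum]
      _ ≤ 2 * Real.exp (1 / T) * (2 ^ h * Real.exp (h / (T - 2 - 2 * h))) := by
          gcongr
          exact ih (T - 2) hTh
      _ = 2 ^ (h + 1) * (Real.exp (1 / T) * Real.exp (h / (T - 2 - 2 * h))) := by ring
      _ ≤ 2 ^ (h + 1) * Real.exp (((h + 1 : ℕ) : ℝ) / (T - 2 * ((h + 1 : ℕ) : ℝ))) := by
          gcongr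
          rw [← Real.exp_add]
          apply Real.exp_le_exp.mpr
          push_cast
          have hd : 0 < T - 2 - 2 * (h : ℝ) := by linarith
          have e7 : T - 2 * ((h : ℝ) + 1) = T - 2 - 2 * h := by ring
          rw [e7, add_div, add_comm]
          gcongr
          have : (0:ℝ) ≤ h := Nat.cast_nonneg h
          linarith

/-- The subsets of an `h × h` block with all rows and columns even. -/
def Ev (h : ℕ) : Finset (Finset (Fin h × Fin h)) := Finset.univ.filter (fun F =>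
  (∀ u, Even (F.filter (fun w => w.1 = u)).card) ∧ (∀ v, Even (F.filter (fun w => w.2 = v)).card))

/-- Character sum in one direction. -/
lemma char_sum (h : ℕ) {α : Type} [DecidableEq α] (F : Finset α) (r : α → Fin h) :
    0 ≤ ∑ σ : Fin h → Bool, ∏ w ∈ F, eb (σ (r w)) ∧
    ((∀ u, Even (F.filter (fun w => r w = u)).card) →
      ∑ σ : Fin h → Bool, ∏ w ∈ F, eb (σ (r w)) = 2 ^ h) := by
  have h1 : ∀ σ : Fin h → Bool, ∏ w ∈ F, eb (σ (r w)) =
      ∏ u, eb (σ u) ^ (F.filter (fun w => r w = u)).card := by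
    intro σ
    rw [← Finset.prod_fiberwise F r]
    apply Finset.prod_congr rfl
    intro u _
    rw [← Finset.prod_const]
    apply Finset.prod_congr rfl
    intro w hw
    rw [(Finset.mem_filter.mp hw).2]
  simp_rw [h1]
  have h2 := (Finset.prod_univ_sum (fun _ : Fin h => (Finset.univ : Finset Bool))
    (fun u b => eb b ^ (F.filter (fun w => r w = u)).card))
  rw [Fintype.piFinset_univ] at h2
  rw [← h2]
  refine ⟨?_, ?_⟩
  · apply Finset.prod_nonneg
    intro u _
    simp only [Fintype.sum_bool, eb_true, eb_false, one_pow]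
    rcases neg_one_pow_eq_or ℝ (F.filter (fun w => r w = u)).card with h | h <;> rw [h] <;> norm_num
  · intro hev
    have : ∀ u ∈ (Finset.univ : Finset (Fin h)), (∑ b : Bool, eb b ^ (F.filter (fun w => r w = u)).card) = 2 := by
      intro u _
      simp only [Fintype.sum_bool, eb_true, eb_false, one_pow, (hev u).neg_one_pow]
      norm_num
    rw [Finset.prod_congr rfl this]
    simp

lemma gen_le (h : ℕ) (hh : 1 ≤ h) (z : ℝ) (hz : 0 ≤ z) (hhz : h * z ≤ 1 / 2) :
    ∑ F ∈ Ev h, z ^ F.card ≤ 2 := by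
  have hh' : (1:ℝ) ≤ h := by exact_mod_cast hh
  have hz2 : z ≤ 1 / 2 := by nlinarith
  have step1 : 4 ^ h * ∑ F ∈ Ev h, z ^ F.card ≤
      ∑ F : Finset (Fin h × Fin h), z ^ F.card *
        ((∑ σ : Fin h → Bool, ∏ w ∈ F, eb (σ w.1)) * (∑ τ : Fin h → Bool, ∏ w ∈ F, eb (τ w.2))) := by
    rw [Finset.mul_sum]
    calc ∑ F ∈ Ev h, 4 ^ h * z ^ F.card
        = ∑ F ∈ Ev h, z ^ F.card *
        ((∑ σ : Fin h → Bool, ∏ w ∈ F, eb (σ w.1)) * (∑ τ : Fin h → Bool, ∏ w ∈ F, eb (τ w.2))) := by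
          apply Finset.sum_congr rfl
          intro F hF
          rw [Ev, Finset.mem_filter] at hF
          rw [(char_sum h F (fun w => w.1)).2 hF.2.1, (char_sum h F (fun w => w.2)).2 hF.2.2]
          rw [← mul_pow]
          norm_num
          ring
      _ ≤ _ := by
          apply Finset.sum_le_sum_of_subset_of_nonneg (Finset.subset_univ _)
          intro F _ _
          exact mul_nonneg (pow_nonneg hz _) (mul_nonneg (char_sum h F (fun w => w.1)).1
            (char_sum h F (fun w => w.2)).1)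
  have step2 : ∑ F : Finset (Fin h × Fin h), z ^ F.card *
        ((∑ σ : Fin h → Bool, ∏ w ∈ F, eb (σ w.1)) * (∑ τ : Fin h → Bool, ∏ w ∈ F, eb (τ w.2))) =
      ∑ σ : Fin h → Bool, ∑ τ : Fin h → Bool, ∏ w : Fin h × Fin h, (1 + z * (eb (σ w.1) * eb (τ w.2))) := by
    simp_rw [Finset.sum_mul_sum, Finset.mul_sum]
    rw [Finset.sum_comm]
    apply Finset.sum_congr rfl
    intro σ _
    rw [Finset.sum_comm]
    apply Finset.sum_congr rfl
    intro τ _
    rw [Finset.prod_one_add]
    rw [Finset.powerset_univ]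
    apply Finset.sum_congr rfl
    intro F _
    rw [Finset.prod_mul_distrib, Finset.prod_const, Finset.prod_mul_distrib]
  have step3 : ∀ σ τ : Fin h → Bool, ∏ w : Fin h × Fin h, (1 + z * (eb (σ w.1) * eb (τ w.2))) ≤
      Real.exp ((z * ∑ u, eb (σ u)) * ∑ v, eb (τ v)) := by
    intro σ τ
    have e1 : (z * ∑ u, eb (σ u)) * ∑ v, eb (τ v) = ∑ w : Fin h × Fin h, z * (eb (σ w.1) * eb (τ w.2)) := by
      rw [mul_assoc, Finset.sum_mul_sum, Finset.mul_sum, Fintype.sum_prod_type]
      apply Finset.sum_congr rfl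
      intro u _
      rw [Finset.mul_sum]
    rw [e1, Real.exp_sum]
    apply Finset.prod_le_prod
    · intro w _
      have hb : ∀ b : Bool, |eb b| = 1 := by intro b; cases b <;> simp [eb]
      have h3 : |eb (σ w.1) * eb (τ w.2)| = 1 := by rw [abs_mul, hb, hb, one_mul]
      have h4 := neg_abs_le (eb (σ w.1) * eb (τ w.2))
      nlinarith
    · intro w _
      rw [add_comm]
      exact Real.add_one_le_exp _
  have step4 : ∑ σ : Fin h → Bool, ∑ τ : Fin h → Bool, ∏ w : Fin h × Fin h,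
      (1 + z * (eb (σ w.1) * eb (τ w.2))) ≤ ∑ σ : Fin h → Bool,
        2 ^ h * Real.exp ((∑ v, eb (σ v)) ^ 2 / (8 * h)) := by
    apply Finset.sum_le_sum
    intro σ _
    calc ∑ τ : Fin h → Bool, ∏ w : Fin h × Fin h, (1 + z * (eb (σ w.1) * eb (τ w.2)))
        ≤ ∑ τ : Fin h → Bool, Real.exp ((z * ∑ u, eb (σ u)) * ∑ v, eb (τ v)) :=
          Finset.sum_le_sum (fun τ _ => step3 σ τ)
      _ = (2 * Real.cosh (z * ∑ u, eb (σ u))) ^ h := sum_exp_lin h _
      _ ≤ (2 * Real.exp ((z * ∑ u, eb (σ u)) ^ 2 / 2)) ^ h := by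
          gcongr
          exact Real.cosh_le_exp_half_sq _
      _ = 2 ^ h * Real.exp (h * ((z * ∑ u, eb (σ u)) ^ 2 / 2)) := by
          rw [mul_pow, ← Real.exp_nat_mul]
      _ ≤ 2 ^ h * Real.exp ((∑ v, eb (σ v)) ^ 2 / (8 * h)) := by
          gcongr
          have hp : (0:ℝ) < h := by linarith
          rw [le_div_iff₀ (by positivity)]
          have : (h : ℝ) * ((z * ∑ u, eb (σ u)) ^ 2 / 2) * (8 * h) =
            4 * (h * z) ^ 2 * (∑ v, eb (σ v)) ^ 2 := by ring
          rw [this]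
          have h5 : 4 * (h * z) ^ 2 ≤ 1 := by
            have h6 : 0 ≤ h * z := by positivity
            nlinarith
          calc 4 * (h * z) ^ 2 * (∑ v, eb (σ v)) ^ 2 ≤ 1 * (∑ v, eb (σ v)) ^ 2 :=
                mul_le_mul_of_nonneg_right h5 (sq_nonneg _)
            _ = _ := one_mul _
  have step5 : ∑ σ : Fin h → Bool, 2 ^ h * Real.exp ((∑ v, eb (σ v)) ^ 2 / (8 * h)) ≤ 4 ^ h * 2 := by
    rw [← Finset.mul_sum]
    have h6 := sum_exp_sq h (8 * h) (by linarith)
    have h7 : Real.exp ((h : ℝ) / (8 * h - 2 * h)) ≤ 2 := by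
      have : (h : ℝ) / (8 * h - 2 * h) = 1 / 6 := by
        field_simp
        norm_num
      rw [this]
      have h8 : Real.exp (1 / 6) ≤ Real.exp (1/2) := Real.exp_le_exp.mpr (by norm_num)
      have h9 : Real.exp (1/2) ^ 2 < 4 := by
        rw [← Real.exp_nat_mul]
        norm_num
        exact lt_trans Real.exp_one_lt_d9 (by norm_num)
      nlinarith [Real.exp_pos (1/2)]
    calc (2:ℝ) ^ h * ∑ σ : Fin h → Bool, Real.exp ((∑ v, eb (σ v)) ^ 2 / (8 * h))
        ≤ 2 ^ h * (2 ^ h * Real.exp ((h : ℝ) / (8 * h - 2 * h))) := by gcongr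
      _ ≤ 2 ^ h * (2 ^ h * 2) := by gcongr
      _ = 4 ^ h * 2 := by
          rw [← mul_assoc, ← mul_pow]; norm_num
  have : (4:ℝ) ^ h * ∑ F ∈ Ev h, z ^ F.card ≤ 4 ^ h * 2 := by
    rw [step2] at step1
    linarith
  have h4 : (0:ℝ) < 4 ^ h := by positivity
  exact le_of_mul_le_mul_left this h4

end Pool.Agent.K1H35.ST
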